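import Mathlib

set_option autoImplicit false

/-!
# Products of four terms of an arithmetic progression that are `7`-, `14`- and `37`-gonal numbers

`18 * 19 * 20 * 21 = P_7(240)`, `129 * 136 * 143 * 150 = P_14(7920)` and
`69 * 817 * 1565 * 2313 = P_37(107985)`.
-/

namespace Pool.Agent.Results.MP_8d002f_nt.AllThreeOccur

/-- the `r`-th `k`-gonal number `r * ((k - 2) * r - (k - 4)) / 2`, as a rational number -/
def gonal (k r : ℕ) : ℚ := 1 / 2 * r * (((k : ℚ) - 2) * r - ((k : ℚ) - 4))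

/-- The equation `a (a + d) (a + 2 d) (a + 3 d) = P_k(r)` has a solution in positive integers
`a`, `d`, `r` for `k` -/
def Solvable (k : ℕ) : Prop :=
  ∃ a d r : ℕ, 1 ≤ a ∧ 1 ≤ d ∧ 1 ≤ r ∧
    (a : ℚ) * (a + d) * (a + 2 * d) * (a + 3 * d) = gonal k r

/-- For each of the three values `7`, `14`, `37` of `k` the equation has a solution. -/
theorem result : Solvable 7 ∧ Solvable 14 ∧ Solvable 37 := by
  refine ⟨⟨18, 1, 240, ?_⟩, ⟨129, 7, 7920, ?_⟩, ⟨69, 748, 107985, ?_⟩⟩ <;>
    norm_num [gonal]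

end Pool.Agent.Results.MP_8d002f_nt.AllThreeOccur
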